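import Pool.Agent.ANO.Dyn.Defs
import Pool.Agent.ANO5.A1.Dyn.Coord
import Pool.Agent.ANO5.A2.Defs

/-!
# PACKAGE ANO-DECK. Deck transformations

The metric of `X r` is the sup metric. `SL(2, ℝ)` acts on `ℍ` by isometries, `Fib.Γ` acts on `W` by
isometries.
-/

set_option autoImplicit false

noncomputable section

namespace Pool.Agent.ANO5.A2.Dyn

variable [Fib]

open Pool.Agent.ANO5.A1 Pool.Agent.ANO5.A1.Dyn

open Metric
open scoped UpperHalfPlane MatrixGroups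

variable {r : ℕ} {S : Fin r → ClosedSurface}

theorem isDeck_id : IsDeck S id := by
  refine ⟨fun _ => 1, 1, fun i => (S i).Γ.one_mem, Fib.Γ.one_mem, fun p => ?_⟩
  simp

theorem IsDeck.comp {g h : X r → X r} (hg : IsDeck S g) (hh : IsDeck S h) :
    IsDeck S (g ∘ h) := by
  obtain ⟨γ, v, hγ, hv, hg⟩ := hg
  obtain ⟨γ', v', hγ', hv', hh⟩ := hh
  refine ⟨fun i => γ i * γ' i, v * v', fun i => (S i).Γ.mul_mem (hγ i) (hγ' i),
    Fib.Γ.mul_mem hv hv', fun p => ?_⟩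
  rw [Function.comp_apply, hg, hh]
  refine Prod.ext ?_ rfl
  funext i
  simp only [mul_smul]

theorem IsDeck.inv {g : X r → X r} (hg : IsDeck S g) :
    ∃ g', IsDeck S g' ∧ (∀ p, g' (g p) = p) ∧ ∀ p, g (g' p) = p := by
  obtain ⟨γ, v, hγ, hv, hg⟩ := hg
  refine ⟨fun p => (fun i => (γ i)⁻¹ • p.1 i, v⁻¹ p.2),
    ⟨fun i => (γ i)⁻¹, v⁻¹, fun i => (S i).Γ.inv_mem (hγ i), Fib.Γ.inv_mem hv, fun p => rfl⟩,
    fun p => ?_, fun p => ?_⟩
  · rw [hg]
    refine Prod.ext ?_ (Equiv.symm_apply_apply v p.2)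
    funext i
    simp only [inv_smul_smul]
  · rw [hg]
    refine Prod.ext ?_ (Equiv.apply_symm_apply v p.2)
    funext i
    simp only [smul_inv_smul]

theorem IsDeck.isometry {g : X r → X r} (hg : IsDeck S g) : Isometry g := by
  obtain ⟨γ, v, hγ, hv, hg⟩ := hg
  refine Isometry.of_dist_eq fun p q => ?_
  have h1 : dist (g p).1 (g q).1 = dist p.1 q.1 := by
    rw [hg, hg, dist_pi_def, dist_pi_def]
    congr 1
    refine Finset.sup_congr rfl fun i _ => ?_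
    simp only [nndist_smul]
  have h2 : dist (g p).2 (g q).2 = dist p.2 q.2 := by
    rw [hg, hg]
    exact Fib.isom v hv p.2 q.2
  rw [Prod.dist_eq, Prod.dist_eq, h1, h2]

theorem deck_finite {K : Set (X r)} (hK : IsCompact K) :
    {g | IsDeck S g ∧ ∃ p ∈ K, g p ∈ K}.Finite := by
  classical
  have hK1 : ∀ i : Fin r, IsCompact ((fun p : X r => p.1 i) '' K) := fun i =>
    hK.image (by fun_prop)
  have hF1 : ∀ i : Fin r, {γ : SL(2, ℝ) | γ ∈ (S i).Γ ∧ ∃ z ∈ ((fun p : X r => p.1 i) '' K),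
      γ • z ∈ ((fun p : X r => p.1 i) '' K)}.Finite := fun i => (S i).proper _ (hK1 i)
  have hK2 : IsCompact ((fun p : X r => p.2) '' K) := hK.image (by fun_prop)
  have hF2 := Fib.discrete _ hK2
  have hF3 := Set.Finite.pi hF1
  refine ((hF3.prod hF2).image (fun (a : (Fin r → SL(2, ℝ)) × (Equiv.Perm Fib.W)) (p : X r) =>
    ((fun i => a.1 i • p.1 i, a.2 p.2) : X r))).subset ?_
  rintro g ⟨⟨γ, v, hγ, hv, hg⟩, p, hp, hgp⟩
  refine ⟨(γ, v), ⟨?_, ?_⟩, ?_⟩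
  · intro i _
    refine ⟨hγ i, p.1 i, ⟨p, hp, rfl⟩, g p, hgp, ?_⟩
    simp only [hg]
  · refine ⟨hv, p.2, ⟨p, hp, rfl⟩, g p, hgp, ?_⟩
    simp only [hg]
  · funext q
    rw [hg]

theorem deck_cocompact (S : Fin r → ClosedSurface) :
    ∃ K : Set (X r), IsCompact K ∧ ∀ p, ∃ g, IsDeck S g ∧ g p ∈ K := by
  choose K hK hKp using fun i => (S i).cocompact
  obtain ⟨L, hL, hLp⟩ := Fib.cocompact
  refine ⟨(Set.univ.pi K) ×ˢ L, (isCompact_univ_pi hK).prod hL, fun p => ?_⟩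
  choose γ hγ hγK using fun i => hKp i (p.1 i)
  obtain ⟨v, hv, hvL⟩ := hLp p.2
  exact ⟨fun q => (fun i => γ i • q.1 i, v q.2), ⟨γ, v, hγ, hv, fun q => rfl⟩,
    fun i _ => hγK i, hvL⟩

end Pool.Agent.ANO5.A2.Dyn
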