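import Pool.Agent.ANO5.A1.Dyn.Coord
import Pool.Agent.ANO5.A2.Dyn.Deck

/-!
# PACKAGE ANO-DECKC. Deck transformations are smooth and preserve `tnorm`

For `γ ∈ SL(2, ℝ)` and `z ∈ ℍ`: `γ z = (a z + b) / (c z + d)`
(`UpperHalfPlane.specialLinearGroup_apply`, `UpperHalfPlane.coe_smul`, `UpperHalfPlane.num`,
`denom`), the derivative is `1 / (c z + d) ^ 2` (determinant one), and `Im (γ z) = Im z / |c z +
d| ^ 2` (`UpperHalfPlane.im_smul_eq_div_normSq`). On `dom r` the map `loc g` is `x ↦ (i ↦ (a_i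
x_i + b_i) / (c_i x_i + d_i), x.2 + v)`: it is `C¹` (`contDiffOn_pi`, `ContDiffOn.div`), the
derivative is `v ↦ (i ↦ (c_i x_i + d_i) ^ (-2) v_i, v.2)` (`hasFDerivAt_pi`,
`HasDerivAt.hasFDerivAt`, `restrictScalars ℝ`). So `(Im (γ z))⁻¹ |(c z + d) ^ (-2) v| = (Im z)⁻¹
|v|`, and `tnorm` is the maximum of these numbers and of the norm of `v.2`: use that `tnorm p v`
depends only on the norms of the components (`Prod.norm_def`, `Pi.norm_def`).

`tnorm_le`, `le_tnorm`: on a compact set `(p.1 i).im` is bounded by positive constants from above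
and from below.
-/

set_option autoImplicit false

noncomputable section

namespace Pool.Agent.ANO5.A2.Dyn

variable [Fib]

open Pool.Agent.ANO5.A1 Pool.Agent.ANO5.A1.Dyn

open Metric
open scoped UpperHalfPlane MatrixGroups

variable {r : ℕ} {S : Fin r → ClosedSurface}

/-- The denominator `c z + d`. -/
private def denDC (γ : SL(2, ℝ)) (z : ℂ) : ℂ := (γ 1 0 : ℂ) * z + (γ 1 1 : ℂ)

/-- The numerator `a z + b`. -/
private def numDC (γ : SL(2, ℝ)) (z : ℂ) : ℂ := (γ 0 0 : ℂ) * z + (γ 0 1 : ℂ)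

private theorem det_DC (γ : SL(2, ℝ)) :
    (γ 0 0 : ℂ) * (γ 1 1 : ℂ) - (γ 0 1 : ℂ) * (γ 1 0 : ℂ) = 1 := by
  have h := γ.det_coe
  rw [Matrix.det_fin_two] at h
  exact_mod_cast h

private theorem den_ne_DC (γ : SL(2, ℝ)) {z : ℂ} (hz : 0 < z.im) : denDC γ z ≠ 0 := by
  intro h
  have h1 := congrArg Complex.im h
  simp only [denDC, Complex.add_im, Complex.mul_im, Complex.ofReal_re, Complex.ofReal_im,
    zero_mul, add_zero, Complex.zero_im] at h1
  have hc : γ 1 0 = 0 := by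
    rcases mul_eq_zero.1 h1 with h2 | h2
    · exact h2
    · exact absurd h2 hz.ne'
  have hd : γ 1 1 = 0 := by
    have h2 := congrArg Complex.re h
    simpa [denDC, hc] using h2
  have h3 := det_DC γ
  rw [hc, hd] at h3
  simp at h3

private theorem coe_smul_DC (γ : SL(2, ℝ)) (z : ℍ) :
    ((γ • z : ℍ) : ℂ) = numDC γ z / denDC γ z := by
  rw [UpperHalfPlane.coe_specialLinearGroup_apply]
  rfl

private theorem hasDeriv_DC (γ : SL(2, ℝ)) {z : ℂ} (hz : 0 < z.im) :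
    HasDerivAt (fun w => numDC γ w / denDC γ w) ((denDC γ z ^ 2)⁻¹) z := by
  have h1 : HasDerivAt (fun w => numDC γ w) (γ 0 0 : ℂ) z := by
    have := ((hasDerivAt_id z).const_mul (γ 0 0 : ℂ)).add_const (γ 0 1 : ℂ)
    simpa [numDC] using this
  have h2 : HasDerivAt (fun w => denDC γ w) (γ 1 0 : ℂ) z := by
    have := ((hasDerivAt_id z).const_mul (γ 1 0 : ℂ)).add_const (γ 1 1 : ℂ)
    simpa [denDC] using this
  have h3 := h1.fun_div h2 (den_ne_DC γ hz)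
  have h4 := det_DC γ
  have h5 : (γ 0 0 : ℂ) * denDC γ z - numDC γ z * (γ 1 0 : ℂ) = 1 := by
    unfold numDC denDC
    linear_combination h4
  rw [h5, one_div] at h3
  exact h3

private theorem im_smul_DC (γ : SL(2, ℝ)) (z : ℍ) :
    (γ • z).im = z.im / ‖denDC γ z‖ ^ 2 := by
  have h1 := UpperHalfPlane.im_smul_eq_div_normSq (g := (γ : GL (Fin 2) ℝ)) (z := z)
  have h2 : ((γ : GL (Fin 2) ℝ) • z : ℍ) = γ • z := rfl
  rw [h2] at h1
  rw [h1, ← Complex.normSq_eq_norm_sq]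
  simp [UpperHalfPlane.denom, denDC]

private theorem norm_DC (γ : SL(2, ℝ)) (z : ℍ) (v : ℂ) :
    ‖((γ • z).im : ℂ)⁻¹ * ((denDC γ z ^ 2)⁻¹ * v)‖ = ‖(z.im : ℂ)⁻¹ * v‖ := by
  have h1 : ‖denDC γ z‖ ≠ 0 := norm_ne_zero_iff.2 (den_ne_DC γ z.coe_im_pos)
  have hz : 0 < z.im := z.im_pos
  have hz' : 0 < (γ • z).im := (γ • z).im_pos
  rw [norm_mul, norm_mul, norm_mul, norm_inv, norm_inv, norm_inv, norm_pow, Complex.norm_real,
    Complex.norm_real, Real.norm_of_nonneg hz.le, Real.norm_of_nonneg hz'.le, im_smul_DC]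
  field_simp

/-- The action on `W` in the coordinates. -/
private def actDC (δ : Equiv.Perm Fib.W) (v : Fib.V) : Fib.V := Fib.crd (δ (Fib.crd.symm v))

private theorem loc_eq_DC {g : X r → X r} {γ : Fin r → SL(2, ℝ)} {δ : Equiv.Perm Fib.W}
    (h : ∀ p, g p = (fun i => γ i • p.1 i, δ p.2)) {x : E r}
    (hx : x ∈ dom r) :
    loc g x = (fun i => numDC (γ i) (x.1 i) / denDC (γ i) (x.1 i), actDC δ x.2) := by
  unfold loc
  rw [h]
  refine Prod.ext (funext fun i => ?_) rfl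
  change ((γ i • (ofE x).1 i : ℍ) : ℂ) = _
  rw [coe_smul_DC]
  have h1 : (((ofE x).1 i : ℍ) : ℂ) = x.1 i :=
    congrFun (congrArg Prod.fst (toE_ofE hx)) i
  rw [h1]

/-- The derivative. -/
private def derDC (c : Fin r → ℂ) (D : Fib.V →L[ℝ] Fib.V) : E r →L[ℝ] E r :=
  (ContinuousLinearMap.pi fun i =>
    (((ContinuousLinearMap.toSpanSingleton ℂ (c i)).restrictScalars ℝ).comp
      ((ContinuousLinearMap.proj i).comp
        (ContinuousLinearMap.fst ℝ (Fin r → ℂ) Fib.V)))).prod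
    (D.comp (ContinuousLinearMap.snd ℝ (Fin r → ℂ) Fib.V))

private theorem derDC_apply (c : Fin r → ℂ) (D : Fib.V →L[ℝ] Fib.V) (v : E r) :
    derDC c D v = (fun i => c i * v.1 i, D v.2) := by
  refine Prod.ext (funext fun i => ?_) rfl
  change v.1 i • c i = c i * v.1 i
  rw [smul_eq_mul, mul_comm]

private theorem hasFDeriv_DC {g : X r → X r} {γ : Fin r → SL(2, ℝ)} {δ : Equiv.Perm Fib.W}
    (hδ : δ ∈ Fib.Γ) (h : ∀ p, g p = (fun i => γ i • p.1 i, δ p.2)) {x : E r}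
    (hx : x ∈ dom r) :
    HasFDerivAt (loc g) (derDC (fun i => (denDC (γ i) (x.1 i) ^ 2)⁻¹)
      (fderiv ℝ (actDC δ) x.2) : E r →L[ℝ] E r) x := by
  have h1 : loc g =ᶠ[nhds x] fun y => (fun i => numDC (γ i) (y.1 i) / denDC (γ i) (y.1 i),
      actDC δ y.2) := by
    filter_upwards [isOpen_dom.mem_nhds hx] with y hy
    exact loc_eq_DC h hy
  refine HasFDerivAt.congr_of_eventuallyEq ?_ h1
  refine HasFDerivAt.prodMk ?_ ?_
  · rw [hasFDerivAt_pi]
    intro i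
    have h2 := (hasDeriv_DC (γ i) (hx i)).hasFDerivAt.restrictScalars ℝ
    have h3 : HasFDerivAt (fun y : E r => y.1 i) ((ContinuousLinearMap.proj i).comp
        (ContinuousLinearMap.fst ℝ (Fin r → ℂ) Fib.V)) x :=
      ((ContinuousLinearMap.proj i).comp
        (ContinuousLinearMap.fst ℝ (Fin r → ℂ) Fib.V)).hasFDerivAt
    exact h2.comp x h3
  · have h4 : HasFDerivAt (actDC δ) (fderiv ℝ (actDC δ) x.2) x.2 :=
      ((Fib.smooth δ hδ).differentiable one_ne_zero x.2).hasFDerivAt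
    exact h4.comp x (ContinuousLinearMap.snd ℝ (Fin r → ℂ) Fib.V).hasFDerivAt

theorem IsDeck.contDiffOn {g : X r → X r} (hg : IsDeck S g) :
    ContDiffOn ℝ 1 (loc g) (dom r) := by
  obtain ⟨γ, δ, -, hδ, h⟩ := hg
  have h1 : ContDiffOn ℝ 1 (fun y : E r =>
      (fun i => numDC (γ i) (y.1 i) / denDC (γ i) (y.1 i), actDC δ y.2))
      (dom r) := by
    refine ContDiffOn.prodMk ?_ ?_
    · rw [contDiffOn_pi]
      intro i
      have h3 : ContDiff ℝ 1 (fun y : E r => y.1 i) :=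
        ((ContinuousLinearMap.proj i).comp
          (ContinuousLinearMap.fst ℝ (Fin r → ℂ) Fib.V)).contDiff
      have hn : ContDiffOn ℝ 1 (fun y : E r => numDC (γ i) (y.1 i)) (dom r) :=
        ((contDiff_const.mul h3).add contDiff_const).contDiffOn
      have hd : ContDiffOn ℝ 1 (fun y : E r => denDC (γ i) (y.1 i)) (dom r) :=
        ((contDiff_const.mul h3).add contDiff_const).contDiffOn
      have hi := hd.inv fun y hy => den_ne_DC (γ i) (hy i)
      exact (hn.mul hi).congr fun y _ => div_eq_mul_inv _ _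
    · exact ((Fib.smooth δ hδ).comp contDiff_snd).contDiffOn
  exact h1.congr fun x hx => loc_eq_DC h hx

private theorem norm_eq_DC {v w : Fin r → ℂ} (h1 : ∀ i, ‖v i‖ = ‖w i‖) : ‖v‖ = ‖w‖ := by
  rw [Pi.norm_def, Pi.norm_def]
  congr 2
  funext i
  exact NNReal.eq (h1 i)

theorem IsDeck.tnorm {g : X r → X r} (hg : IsDeck S g) (p : X r) (v : E r) :
    tnorm (g p) (tmap g p v) = tnorm p v := by
  obtain ⟨γ, δ, -, hδ, h⟩ := hg
  have h1 := (hasFDeriv_DC hδ h (toE_mem p)).fderiv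
  unfold tmap
  rw [h1, derDC_apply]
  unfold Pool.Agent.ANO5.A1.tnorm
  refine congrArg₂ max (norm_eq_DC fun i => ?_) ?_
  · rw [h p]
    exact norm_DC (γ i) (p.1 i) (v.1 i)
  · rw [h p]
    exact Fib.nrm_inv δ hδ p.2 v.2

private theorem bounds_DC {K : Set (X r)} (hK : IsCompact K) :
    ∃ c ≥ (1 : ℝ), ∀ p ∈ K, ∀ i, (p.1 i).im ≤ c ∧ (p.1 i).im⁻¹ ≤ c := by
  have h1 : ∀ i, Continuous fun p : X r => (p.1 i).im := fun i =>
    UpperHalfPlane.continuous_im.comp ((continuous_apply i).comp continuous_fst)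
  have h2 : ∀ i : Fin r, ∃ c : ℝ, ∀ p ∈ K, (p.1 i).im ≤ c ∧ (p.1 i).im⁻¹ ≤ c := by
    intro i
    obtain ⟨a, ha⟩ := hK.bddAbove_image (h1 i).continuousOn
    have h3 : Continuous fun p : X r => (p.1 i).im⁻¹ :=
      (h1 i).inv₀ fun p => (p.1 i).im_pos.ne'
    obtain ⟨b, hb⟩ := hK.bddAbove_image h3.continuousOn
    refine ⟨max a b, fun p hp => ⟨?_, ?_⟩⟩
    · exact (ha (Set.mem_image_of_mem _ hp)).trans (le_max_left _ _)
    · exact (hb (Set.mem_image_of_mem _ hp)).trans (le_max_right _ _)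
  choose c hc using h2
  refine ⟨1 + ∑ i, |c i|, ?_, fun p hp i => ?_⟩
  · have : 0 ≤ ∑ i, |c i| := Finset.sum_nonneg fun i _ => abs_nonneg _
    linarith
  · have h4 : |c i| ≤ ∑ j, |c j| :=
      Finset.single_le_sum (f := fun j => |c j|) (fun j _ => abs_nonneg _) (Finset.mem_univ i)
    have h5 := le_abs_self (c i)
    have h6 := hc i p hp
    constructor <;> linarith [h6.1, h6.2]

private theorem norm_le_DC {v : E r} {C : ℝ} (hC : 0 ≤ C) (h1 : ∀ i, ‖v.1 i‖ ≤ C)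
    (h2 : ‖v.2‖ ≤ C) : ‖v‖ ≤ C := by
  rw [Prod.norm_def]
  exact max_le ((pi_norm_le_iff_of_nonneg hC).2 h1) h2

/-- The norm of `V` and the invariant norm are equivalent on compact sets. -/
private theorem nrm_bounds_DC {K : Set Fib.W} (hK : IsCompact K) :
    ∃ c > 0, ∀ x ∈ K, ∀ v : Fib.V, Fib.nrm x v ≤ c * ‖v‖ ∧ ‖v‖ ≤ c * Fib.nrm x v := by
  have hS : IsCompact (K ×ˢ sphere (0 : Fib.V) 1) := hK.prod (isCompact_sphere 0 1)
  obtain ⟨a, ha⟩ := hS.bddAbove_image Fib.nrm_cont.continuousOn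
  have hpos : ∀ q ∈ K ×ˢ sphere (0 : Fib.V) 1, Fib.nrm q.1 q.2 ≠ 0 := by
    rintro ⟨x, v⟩ ⟨-, hv⟩
    refine (Fib.nrm_pos x v ?_).ne'
    rintro rfl
    have hv' : (0 : Fib.V) ∈ sphere (0 : Fib.V) 1 := hv
    rw [mem_sphere_zero_iff_norm, norm_zero] at hv'
    exact zero_ne_one hv'
  have hc2 : ContinuousOn (fun q : Fib.W × Fib.V => (Fib.nrm q.1 q.2)⁻¹)
      (K ×ˢ sphere (0 : Fib.V) 1) := Fib.nrm_cont.continuousOn.inv₀ hpos
  obtain ⟨b, hb⟩ := hS.bddAbove_image hc2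
  have hab : 0 < max (max a b) 1 := lt_of_lt_of_le one_pos (le_max_right _ _)
  refine ⟨max (max a b) 1, hab, fun x hx v => ?_⟩
  by_cases hv : v = 0
  · rw [hv, Fib.nrm_zero, norm_zero, mul_zero]
    exact ⟨le_rfl, le_rfl⟩
  have hv0 : 0 < ‖v‖ := norm_pos_iff.2 hv
  have hw : ((x, ‖v‖⁻¹ • v) : Fib.W × Fib.V) ∈ K ×ˢ sphere (0 : Fib.V) 1 := by
    refine ⟨hx, ?_⟩
    change ‖v‖⁻¹ • v ∈ sphere (0 : Fib.V) 1
    rw [mem_sphere_zero_iff_norm, norm_smul, norm_inv, norm_norm, inv_mul_cancel₀ hv0.ne']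
  have h1 : Fib.nrm x (‖v‖⁻¹ • v) ≤ a := ha (Set.mem_image_of_mem _ hw)
  have h2 : (Fib.nrm x (‖v‖⁻¹ • v))⁻¹ ≤ b := hb (Set.mem_image_of_mem _ hw)
  have h3 : Fib.nrm x (‖v‖⁻¹ • v) = ‖v‖⁻¹ * Fib.nrm x v := by
    rw [Fib.nrm_smul, abs_of_pos (inv_pos.2 hv0)]
  rw [h3] at h1 h2
  have h4 := Fib.nrm_pos x v hv
  have h5 : a ≤ max (max a b) 1 := (le_max_left _ _).trans (le_max_left _ _)
  have h6 : b ≤ max (max a b) 1 := (le_max_right _ _).trans (le_max_left _ _)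
  constructor
  · have h7 := h1.trans h5
    rw [inv_mul_le_iff₀ hv0] at h7
    linarith
  · have h7 := h2.trans h6
    rw [mul_inv, inv_inv, ← div_eq_mul_inv, div_le_iff₀ h4] at h7
    exact h7

private theorem image_snd_DC {K : Set (X r)} (hK : IsCompact K) :
    IsCompact ((fun p : X r => p.2) '' K) := hK.image continuous_snd

theorem tnorm_le {K : Set (X r)} (hK : IsCompact K) :
    ∃ c > 0, ∀ p ∈ K, ∀ v : E r, tnorm p v ≤ c * ‖v‖ := by
  obtain ⟨c, hc, h⟩ := bounds_DC hK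
  obtain ⟨c', hc', h'⟩ := nrm_bounds_DC (image_snd_DC hK)
  refine ⟨max c c', lt_of_lt_of_le (by linarith) (le_max_left _ _), fun p hp v => ?_⟩
  unfold Pool.Agent.ANO5.A1.tnorm
  have h0 : 0 ≤ c * ‖v‖ := mul_nonneg (by linarith) (norm_nonneg _)
  refine max_le ?_ ?_
  · refine le_trans ?_ (mul_le_mul_of_nonneg_right (le_max_left c c') (norm_nonneg v))
    refine (pi_norm_le_iff_of_nonneg h0).2 fun i => ?_
    have hz : 0 < (p.1 i).im := (p.1 i).im_pos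
    change ‖((p.1 i).im : ℂ)⁻¹ * v.1 i‖ ≤ _
    rw [norm_mul, norm_inv, Complex.norm_real, Real.norm_of_nonneg hz.le]
    refine mul_le_mul (h p hp i).2 ?_ (norm_nonneg _) (by linarith)
    exact (norm_le_pi_norm v.1 i).trans (norm_fst_le v)
  · refine le_trans (h' p.2 ⟨p, hp, rfl⟩ v.2).1 ?_
    exact mul_le_mul (le_max_right _ _) (norm_snd_le v) (norm_nonneg _)
      (hc'.le.trans (le_max_right _ _))

theorem le_tnorm {K : Set (X r)} (hK : IsCompact K) :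
    ∃ c > 0, ∀ p ∈ K, ∀ v : E r, ‖v‖ ≤ c * tnorm p v := by
  obtain ⟨c, hc, h⟩ := bounds_DC hK
  obtain ⟨c', hc', h'⟩ := nrm_bounds_DC (image_snd_DC hK)
  refine ⟨max c c', lt_of_lt_of_le (by linarith) (le_max_left _ _), fun p hp v => ?_⟩
  unfold Pool.Agent.ANO5.A1.tnorm
  set w : Fin r → ℂ := fun i => ((p.1 i).im : ℂ)⁻¹ * v.1 i with hw
  have hm : 0 ≤ max ‖w‖ (Fib.nrm p.2 v.2) := (norm_nonneg _).trans (le_max_left _ _)
  have hc0 : 0 ≤ max c c' := (by linarith : 0 ≤ c).trans (le_max_left _ _)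
  have h0 : 0 ≤ max c c' * max ‖w‖ (Fib.nrm p.2 v.2) := mul_nonneg hc0 hm
  refine norm_le_DC h0 (fun i => ?_) ?_
  · have hz : 0 < (p.1 i).im := (p.1 i).im_pos
    have h3 : v.1 i = ((p.1 i).im : ℂ) * w i := by
      change v.1 i = ((p.1 i).im : ℂ) * (((p.1 i).im : ℂ)⁻¹ * v.1 i)
      rw [mul_inv_cancel_left₀]
      exact_mod_cast hz.ne'
    rw [h3, norm_mul, Complex.norm_real, Real.norm_of_nonneg hz.le]
    refine mul_le_mul ((h p hp i).1.trans (le_max_left _ _)) ?_ (norm_nonneg _) hc0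
    exact (norm_le_pi_norm w i).trans (le_max_left _ _)
  · refine (h' p.2 ⟨p, hp, rfl⟩ v.2).2.trans ?_
    exact mul_le_mul (le_max_right _ _) (le_max_right _ _) (Fib.nrm_nonneg _ _) hc0

end Pool.Agent.ANO5.A2.Dyn
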