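import Pool.Agent.ANO.Dyn.Seq
import Pool.Agent.ANO.Dyn.Loc
import Pool.Agent.ANO.Dyn.Unif
import Pool.Agent.ANO5.A2.Dyn.Hyp
import Pool.Agent.ANO.Dyn.Pow

/-!
# Expansivity and shadowing for lifts of Anosov diffeomorphisms
-/

set_option autoImplicit false

noncomputable section

namespace Pool.Agent.ANO5.A2.Dyn

variable [Fib]

open Pool.Agent.ANO5.A1 Pool.Agent.ANO5.A1.Dyn Pool.Agent.ANO.Dyn

open Metric Filter Topology
open scoped UpperHalfPlane

variable {r : ℕ} {S : Fin r → ClosedSurface}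

/-- a homeomorphism of `X` which normalises the deck group is uniformly continuous -/
theorem uniformContinuous_lift {F : X r ≃ₜ X r}
    (h : ∀ g, IsDeck S g → ∃ g', IsDeck S g' ∧ F ∘ g = g' ∘ F) : UniformContinuous F := by
  obtain ⟨K, hK, hcov⟩ := deck_cocompact S
  rw [Metric.uniformContinuous_iff]
  intro ε hε
  have h1 := hK.uniformContinuousAt_of_continuousAt F (fun p _ => F.continuous.continuousAt)
    (Metric.dist_mem_uniformity hε)
  obtain ⟨δ, hδ, h2⟩ := Metric.mem_uniformity_dist.1 h1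
  refine ⟨δ, hδ, fun x y hxy => ?_⟩
  obtain ⟨g, hg, hgx⟩ := hcov x
  obtain ⟨g', hg', hgg⟩ := h g hg
  have h3 : dist (g x) (g y) < δ := by rwa [(IsDeck.isometry hg).dist_eq]
  have h4 : dist (F (g x)) (F (g y)) < ε := h2 h3 hgx
  have h5 : ∀ p, F (g p) = g' (F p) := fun p => congrFun hgg p
  rwa [h5, h5, (IsDeck.isometry hg').dist_eq] at h4

private theorem norm_pow {F : X r ≃ₜ X r}
    (h : ∀ g, IsDeck S g → ∃ g', IsDeck S g' ∧ F ∘ g = g' ∘ F) (n : ℕ) :
    ∀ g, IsDeck S g → ∃ g', IsDeck S g' ∧ ∀ p, (F ^ n) (g p) = g' ((F ^ n) p) := by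
  induction n with
  | zero =>
    intro g hg
    exact ⟨g, hg, fun p => rfl⟩
  | succ n ih =>
    intro g hg
    obtain ⟨g1, hg1, h1⟩ := h g hg
    obtain ⟨g2, hg2, h2⟩ := ih g1 hg1
    refine ⟨g2, hg2, fun p => ?_⟩
    have h3 : F (g p) = g1 (F p) := congrFun h1 p
    rw [pow_succ]
    show (F ^ n) (F (g p)) = g2 ((F ^ n) (F p))
    rw [h3, h2]

private theorem norm_pow' {F : X r ≃ₜ X r}
    (h : ∀ g', IsDeck S g' → ∃ g, IsDeck S g ∧ F ∘ g = g' ∘ F) (n : ℕ) :
    ∀ g', IsDeck S g' → ∃ g, IsDeck S g ∧ ∀ p, (F ^ n) (g p) = g' ((F ^ n) p) := by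
  induction n with
  | zero =>
    intro g hg
    exact ⟨g, hg, fun p => rfl⟩
  | succ n ih =>
    intro g' hg'
    obtain ⟨g2, hg2, h2⟩ := ih g' hg'
    obtain ⟨g1, hg1, h1⟩ := h g2 hg2
    refine ⟨g1, hg1, fun p => ?_⟩
    have h3 : F (g1 p) = g2 (F p) := congrFun h1 p
    rw [pow_succ]
    show (F ^ n) (F (g1 p)) = g' ((F ^ n) (F p))
    rw [h3, h2]

private theorem uc_symm {F : X r ≃ₜ X r}
    (h : ∀ g', IsDeck S g' → ∃ g, IsDeck S g ∧ F ∘ g = g' ∘ F) (n : ℕ) :
    UniformContinuous (F ^ n : X r ≃ₜ X r).symm := by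
  refine uniformContinuous_lift (S := S) fun g' hg' => ?_
  obtain ⟨g, hg, h1⟩ := norm_pow' h n g' hg'
  refine ⟨g, hg, funext fun p => ?_⟩
  show (F ^ n).symm (g' p) = g ((F ^ n).symm p)
  rw [Homeomorph.symm_apply_eq, h1, Homeomorph.apply_symm_apply]

/-- the estimates at one point -/
private theorem est_point {F : X r ≃ₜ X r} (hF : IsAnosovLift S F) {N : ℕ}
    {P : X r → (E r →L[ℝ] E r)} (hPc : Continuous P) (hPi : ∀ p, P p ∘L P p = P p)
    {h h' : X r → X r} (hh : IsDeck S h) (hh' : IsDeck S h') (h1 : ∀ p, h' (h p) = p)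
    (h2 : ∀ p, h (h' p) = p) {p : X r}
    (hst : Step P (h ∘ ⇑(F ^ N)) (⇑(F ^ N).symm ∘ h') p) :
    ∃ ρ > 0, ∀ x ∈ closedBall (toE p) ρ, ∀ x' ∈ closedBall (loc (h ∘ ⇑(F ^ N)) (toE p)) ρ,
      Good (dom r) (loc (h ∘ ⇑(F ^ N))) (loc (⇑(F ^ N).symm ∘ h')) (fun x => P (ofE x))
        x x' ρ := by
  have hc := contDiffOn_pow hF N
  have hgf : ∀ x ∈ dom r, loc (⇑(F ^ N).symm ∘ h') (loc (h ∘ ⇑(F ^ N)) x) = x := by
    intro x hx
    rw [← loc_comp]
    have h3 : (⇑(F ^ N).symm ∘ h') ∘ h ∘ ⇑(F ^ N) = id := by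
      funext q
      show (F ^ N).symm (h' (h ((F ^ N) q))) = q
      rw [h1, Homeomorph.symm_apply_apply]
    rw [h3, loc_id hx]
  have hfg : ∀ x ∈ dom r, loc (h ∘ ⇑(F ^ N)) (loc (⇑(F ^ N).symm ∘ h') x) = x := by
    intro x hx
    rw [← loc_comp]
    have h3 : (h ∘ ⇑(F ^ N)) ∘ ⇑(F ^ N).symm ∘ h' = id := by
      funext q
      show h ((F ^ N) ((F ^ N).symm (h' q))) = q
      rw [Homeomorph.apply_symm_apply, h2]
    rw [h3, loc_id hx]
  refine loc_est isOpen_dom (contDiffOn_loc_comp (IsDeck.contDiffOn hh) hc.1)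
    (contDiffOn_loc_comp hc.2 (IsDeck.contDiffOn hh')) (fun x _ => loc_mem _ _)
    (fun x _ => loc_mem _ _) hgf hfg (Pr := fun x => P (ofE x))
    (fun x hx => (hPc.continuousAt.comp (continuousAt_ofE hx)).continuousWithinAt)
    (fun x _ => hPi _) (toE_mem p) ?_ ?_ ?_
  · simp only [loc_toE, ofE_toE]
    exact hst.comm
  · simp only [loc_toE, ofE_toE]
    exact hst.s
  · simp only [loc_toE, ofE_toE]
    exact hst.u

private theorem exists_data {F : X r ≃ₜ X r} (hF : IsAnosovLift S F) :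
    ∃ (K : Set (X r)) (P : X r → (E r →L[ℝ] E r)) (N : ℕ) (ρ : ℝ), IsCompact K ∧
      (∀ p, ∃ g, IsDeck S g ∧ g p ∈ K) ∧ Continuous P ∧ (∀ p, P p ∘L P p = P p) ∧ 0 < N ∧
      0 < ρ ∧ ∀ h h' : X r → X r, IsDeck S h → IsDeck S h' → (∀ p, h' (h p) = p) →
        (∀ p, h (h' p) = p) → ∀ p ∈ K, ∀ p' ∈ K, dist (h ((F ^ N) p)) p' ≤ 1 →
          ‖toE p' - toE (h ((F ^ N) p))‖ ≤ ρ →
          Est (loc (h ∘ ⇑(F ^ N))) (loc (⇑(F ^ N).symm ∘ h')) (P p) (P p') (toE p) (toE p')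
            ρ := by
  obtain ⟨K, hK, hcov⟩ := deck_cocompact S
  have hK1 : IsCompact (cthickening 1 K) := hK.cthickening
  obtain ⟨P, hPc, hPi, N, hN, hstep⟩ := hyp hF hK hK1
  have hfc : Continuous (F ^ N : X r ≃ₜ X r) := (F ^ N).continuous
  set K' : Set (X r) := (⇑(F ^ N)) '' K ∪ cthickening 1 K with hK'
  have hK'c : IsCompact K' := (hK.image hfc).union hK1
  have hfin := deck_finite (S := S) hK'c
  set A : Set (X r → X r) := {g | IsDeck S g ∧ ∃ p ∈ K', g p ∈ K'} with hA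
  have key : ∀ h ∈ A, ∃ ρ > 0, ∀ h' : X r → X r, IsDeck S h' → (∀ p, h' (h p) = p) →
      (∀ p, h (h' p) = p) → ∀ p ∈ K, h ((F ^ N) p) ∈ cthickening 1 K →
        ∀ x' ∈ closedBall (toE (h ((F ^ N) p))) ρ,
        Good (dom r) (loc (h ∘ ⇑(F ^ N))) (loc (⇑(F ^ N).symm ∘ h')) (fun x => P (ofE x))
          (toE p) x' ρ := by
    intro h hh
    obtain ⟨h', hh', h1, h2⟩ := IsDeck.inv hh.1
    have hcont : Continuous (h ∘ ⇑(F ^ N)) := (IsDeck.isometry hh.1).continuous.comp hfc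
    set Kh : Set (X r) := K ∩ (h ∘ ⇑(F ^ N)) ⁻¹' (cthickening 1 K) with hKh
    have hKhc : IsCompact Kh := hK.inter_right (isClosed_cthickening.preimage hcont)
    have hlc : ContinuousOn (loc (h ∘ ⇑(F ^ N))) (dom r) :=
      (contDiffOn_loc_comp (IsDeck.contDiffOn hh.1) (contDiffOn_pow hF N).1).continuousOn
    obtain ⟨ρ, hρ, hgood⟩ := unif (U := dom r) (f := loc (h ∘ ⇑(F ^ N)))
      (g := loc (⇑(F ^ N).symm ∘ h')) (Pr := fun x => P (ofE x)) (K := toE '' Kh)
      (hKhc.image continuous_toE)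
      (hlc.mono (by rintro _ ⟨p, -, rfl⟩; exact toE_mem p)) (by
        rintro _ ⟨p, hp, rfl⟩
        exact est_point hF hPc hPi hh.1 hh' h1 h2 (hstep h h' hh.1 hh' h1 h2 p hp.1 hp.2))
    refine ⟨ρ, hρ, fun h'' hh'' h1' h2' p hp hp1 x' hx' => ?_⟩
    have e : h'' = h' := by
      funext q
      have h3 := h1' (h' q)
      rw [h2] at h3
      exact h3
    rw [e]
    refine hgood (toE p) ⟨p, ⟨hp, hp1⟩, rfl⟩ x' ?_
    rw [loc_toE]
    exact hx'
  choose! ρ hρ hgood using key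
  have hmin : ∀ᶠ x in 𝓝[>] (0 : ℝ), ∀ h ∈ A, x ≤ ρ h := by
    rw [Filter.eventually_all_finite hfin]
    intro h hh
    filter_upwards [Ioc_mem_nhdsGT (hρ h hh)] with x hx
    exact hx.2
  obtain ⟨ρ0, hρ0, hρ0'⟩ := (hmin.and self_mem_nhdsWithin).exists
  refine ⟨K, P, N, ρ0, hK, hcov, hPc, hPi, hN, hρ0', ?_⟩
  intro h h' hh hh' h1 h2 p hp p' hp' hd hn
  have hmem : h ((F ^ N) p) ∈ cthickening 1 K :=
    mem_cthickening_of_dist_le _ p' 1 K hp' hd
  have hhA : h ∈ A := ⟨hh, (F ^ N) p, Or.inl ⟨p, hp, rfl⟩, Or.inr hmem⟩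
  have h3 := hgood h hhA h' hh' h1 h2 p hp hmem (toE p') (by
    rw [mem_closedBall, dist_eq_norm]
    exact hn.trans (hρ0 h hhA))
  have h4 := (h3.mono (hρ0 h hhA)).2.2
  simp only [ofE_toE] at h4
  exact h4

/-- the data of a sequence in `X`: deck transformations which move it to `K` -/
private theorem exists_seq {f : X r ≃ₜ X r}
    (hf : ∀ g, IsDeck S g → ∃ g', IsDeck S g' ∧ ∀ p, f (g p) = g' (f p)) {K : Set (X r)}
    (hcov : ∀ p, ∃ g, IsDeck S g ∧ g p ∈ K) (x : ℤ → X r) :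
    ∃ c c' h h' : ℤ → X r → X r, (∀ j, IsDeck S (c j)) ∧ (∀ j, IsDeck S (c' j)) ∧
      (∀ j p, c' j (c j p) = p) ∧ (∀ j p, c j (c' j p) = p) ∧ (∀ j, IsDeck S (h j)) ∧
      (∀ j, IsDeck S (h' j)) ∧ (∀ j p, h' j (h j p) = p) ∧ (∀ j p, h j (h' j p) = p) ∧
      (∀ j, c j (x j) ∈ K) ∧ ∀ j p, h j (f p) = c (j + 1) (f (c' j p)) := by
  choose c hc hcx using fun j => hcov (x j)
  choose c' hc' h1 h2 using fun j => IsDeck.inv (hc j)
  choose d hd hdf using fun j => hf (c' j) (hc' j)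
  choose h' hh' h3 h4 using fun j => IsDeck.inv (IsDeck.comp (hc (j + 1)) (hd j))
  refine ⟨c, c', fun j => c (j + 1) ∘ d j, h', hc, hc', h1, h2,
    fun j => IsDeck.comp (hc (j + 1)) (hd j), hh', h3, h4, hcx, fun j p => ?_⟩
  show c (j + 1) (d j (f p)) = _
  rw [hdf]

private theorem zpow_orbit {f : X r ≃ₜ X r} {w : ℤ → X r} (hw : ∀ j, w (j + 1) = f (w j))
    (j : ℤ) : (f ^ j) (w 0) = w j := by
  induction j using Int.induction_on with
  | zero => rfl
  | succ i ih =>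
    rw [hw, ← ih, add_comm, zpow_add, zpow_one]
    rfl
  | pred i ih =>
    have h1 := hw (-(i : ℤ) - 1)
    rw [sub_add_cancel, ← ih] at h1
    have h2 : (f ^ (-(i : ℤ))) (w 0) = f ((f ^ (-(i : ℤ) - 1)) (w 0)) := by
      have h3 : f ^ (-(i : ℤ)) = f * f ^ (-(i : ℤ) - 1) := by
        rw [← zpow_one_add]
        congr 1
        ring
      rw [h3]
      rfl
    rw [h2] at h1
    exact f.injective h1

theorem exists_pow {F : X r ≃ₜ X r} (hF : IsAnosovLift S F) :
    ∃ N : ℕ, 0 < N ∧ Expansive (F ^ N) ∧ Shadowing (F ^ N) := by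
  obtain ⟨K, P, N, ρ, hK, hcov, hPc, hPi, hN, hρ, hest⟩ := exists_data hF
  refine ⟨N, hN, ?_, ?_⟩
  · obtain ⟨δ, hδ, h1⟩ := near_toE (r := r) hK hρ
    refine ⟨δ, hδ, fun x y hxy => ?_⟩
    obtain ⟨c, c', h, h', hc, hc', c1, c2, hh, hh', e1, e2, hK2, hf⟩ :=
      exists_seq (norm_pow hF.2.2.1 N) hcov fun j => ((F ^ N) ^ j) x
    have hz : ∀ (z : X r) (j : ℤ), ((F ^ N) ^ (j + 1)) z = (F ^ N) (((F ^ N) ^ j) z) := by
      intro z j
      rw [add_comm, zpow_one_add]
      rfl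
    have hstep : ∀ (z : X r) (j : ℤ),
        h j ((F ^ N) (c j (((F ^ N) ^ j) z))) = c (j + 1) (((F ^ N) ^ (j + 1)) z) := by
      intro z j
      rw [hf, c1, hz]
    have hinv : ∀ (z : X r) (j : ℤ),
        (F ^ N).symm (h' j (c (j + 1) (((F ^ N) ^ (j + 1)) z))) = c j (((F ^ N) ^ j) z) := by
      intro z j
      rw [← hstep, e1, Homeomorph.symm_apply_apply]
    have h2 := seq_unique (f := fun j => loc (h j ∘ ⇑(F ^ N)))
      (g := fun j => loc (⇑(F ^ N).symm ∘ h' j)) (P := fun j => P (c j (((F ^ N) ^ j) x)))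
      (k := fun j => toE (c j (((F ^ N) ^ j) x))) (ρ := ρ) (fun j => by
        refine hest (h j) (h' j) (hh j) (hh' j) (e1 j) (e2 j) _ (hK2 j) _ (hK2 (j + 1)) ?_ ?_
        · rw [hstep, dist_self]
          norm_num
        · rw [hstep, sub_self, norm_zero]
          exact hρ.le)
      (y := fun j => toE (c j (((F ^ N) ^ j) x))) (y' := fun j => toE (c j (((F ^ N) ^ j) y)))
      (fun j => mem_closedBall_self hρ.le)
      (fun j => by
        rw [mem_closedBall, dist_eq_norm]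
        refine h1 _ (hK2 j) _ ?_
        rw [(IsDeck.isometry (hc j)).dist_eq]
        exact hxy j)
      (fun j => by
        simp only [loc_toE]
        exact congrArg toE (hstep x j).symm)
      (fun j => by
        simp only [loc_toE]
        exact congrArg toE (hstep y j).symm)
      (fun j => by
        simp only [loc_toE]
        exact congrArg toE (hinv x j))
      (fun j => by
        simp only [loc_toE]
        exact congrArg toE (hinv y j))
    have h3 := congrArg ofE (congrFun h2 0)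
    simp only [ofE_toE] at h3
    exact (IsDeck.isometry (hc 0)).injective h3
  · intro ε hε
    obtain ⟨ρ1, hρ1, n1⟩ := near_ofE (r := r) hK hε
    -- a bound for the projections on `K`
    obtain ⟨B, hB⟩ := hK.exists_bound_of_continuousOn (f := P) hPc.continuousOn
    set B' : ℝ := |B| + 1 with hB'
    have hB'pos : 0 < B' := by positivity
    have hBP : ∀ p ∈ K, ‖P p‖ ≤ B' := fun p hp =>
      (hB p hp).trans (by rw [hB']; linarith [le_abs_self B])
    set δE : ℝ := min ρ ρ1 / 4 with hδE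
    have hδE0 : 0 < δE := by
      have := lt_min hρ hρ1
      positivity
    set δ1 : ℝ := min ρ (δE / (1 + B')) with hδ1
    have hδ10 : 0 < δ1 := lt_min hρ (by positivity)
    obtain ⟨δ2, hδ2, n2⟩ := near_toE (r := r) hK hδ10
    obtain ⟨δ3, hδ3, n3⟩ := Metric.uniformContinuous_iff.1 (uc_symm hF.2.2.2.1 N) δ2 hδ2
    refine ⟨min 1 (min δ2 (δ3 / 2)), by positivity, fun x hx => ?_⟩
    obtain ⟨c, c', h, h', hc, hc', c1, c2, hh, hh', e1, e2, hK2, hf⟩ :=
      exists_seq (norm_pow hF.2.2.1 N) hcov x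
    have hd : ∀ j, dist (h j ((F ^ N) (c j (x j)))) (c (j + 1) (x (j + 1))) ≤
        min 1 (min δ2 (δ3 / 2)) := by
      intro j
      rw [hf, c1, (IsDeck.isometry (hc (j + 1))).dist_eq]
      exact hx j
    have hE1 : ∀ j, ‖toE (h j ((F ^ N) (c j (x j)))) - toE (c (j + 1) (x (j + 1)))‖ ≤ δ1 := by
      intro j
      refine n2 _ (hK2 (j + 1)) _ ?_
      rw [dist_comm]
      exact (hd j).trans ((min_le_right _ _).trans (min_le_left _ _))
    have hE2 : ∀ j, ‖toE ((F ^ N).symm (h' j (c (j + 1) (x (j + 1))))) - toE (c j (x j))‖ ≤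
        δ1 := by
      intro j
      refine n2 _ (hK2 j) _ ?_
      have h5 : c j (x j) = (F ^ N).symm (h' j (h j ((F ^ N) (c j (x j))))) := by
        rw [e1, Homeomorph.symm_apply_apply]
      have h6 : dist (h' j (h j ((F ^ N) (c j (x j))))) (h' j (c (j + 1) (x (j + 1)))) < δ3 := by
        rw [(IsDeck.isometry (hh' j)).dist_eq]
        have h7 := (hd j).trans ((min_le_right _ _).trans (min_le_right _ _))
        linarith
      have h8 := (n3 h6).le
      rwa [← h5] at h8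
    have hδle : (1 + B') * δ1 ≤ δE := by
      have h5 : δ1 ≤ δE / (1 + B') := min_le_right _ _
      have h6 : (0 : ℝ) < 1 + B' := by positivity
      calc (1 + B') * δ1 ≤ (1 + B') * (δE / (1 + B')) := mul_le_mul_of_nonneg_left h5 h6.le
        _ = δE := by field_simp
    obtain ⟨y, hy1, hy2⟩ := seq_exists (f := fun j => loc (h j ∘ ⇑(F ^ N)))
      (g := fun j => loc (⇑(F ^ N).symm ∘ h' j)) (P := fun j => P (c j (x j)))
      (k := fun j => toE (c j (x j))) (ρ := ρ) (δ := δE) hδE0.le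
      (by rw [hδE]; linarith [min_le_left ρ ρ1])
      (fun j v => by
        have h5 := congrArg (fun L => L v) (hPi (c j (x j)))
        exact h5)
      (fun j => by
        refine hest (h j) (h' j) (hh j) (hh' j) (e1 j) (e2 j) _ (hK2 j) _ (hK2 (j + 1)) ?_ ?_
        · exact (hd j).trans (min_le_left _ _)
        · rw [norm_sub_rev]
          exact (hE1 j).trans (min_le_left _ _))
      (fun j => by
        simp only [loc_toE, Function.comp_apply]
        set w := toE (h j ((F ^ N) (c j (x j)))) - toE (c (j + 1) (x (j + 1))) with hw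
        have h5 : ‖w‖ ≤ δ1 := hE1 j
        calc ‖w - P (c (j + 1) (x (j + 1))) w‖ ≤ ‖w‖ + ‖P (c (j + 1) (x (j + 1))) w‖ :=
              norm_sub_le _ _
          _ ≤ ‖w‖ + B' * ‖w‖ := by
              have h6 := (P (c (j + 1) (x (j + 1)))).le_of_opNorm_le (hBP _ (hK2 (j + 1))) w
              linarith
          _ = (1 + B') * ‖w‖ := by ring
          _ ≤ (1 + B') * δ1 := mul_le_mul_of_nonneg_left h5 (by positivity)
          _ ≤ δE := hδle)
      (fun j => by
        simp only [loc_toE, Function.comp_apply]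
        set w := toE ((F ^ N).symm (h' j (c (j + 1) (x (j + 1))))) - toE (c j (x j)) with hw
        have h5 : ‖w‖ ≤ δ1 := hE2 j
        have h6 := (P (c j (x j))).le_of_opNorm_le (hBP _ (hK2 j)) w
        have h7 : B' * ‖w‖ ≤ (1 + B') * δ1 := by
          have : 0 ≤ ‖w‖ := norm_nonneg w
          nlinarith
        exact h6.trans (h7.trans hδle))
    have hy3 : ∀ j, y j ∈ dom r ∧ dist (ofE (y j)) (c j (x j)) ≤ ε := by
      intro j
      refine n1 _ (hK2 j) _ ((hy1 j).trans ?_)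
      rw [hδE]
      linarith [min_le_right ρ ρ1]
    let w : ℤ → X r := fun j => c' j (ofE (y j))
    have hw : ∀ j, w (j + 1) = (F ^ N) (w j) := by
      intro j
      show c' (j + 1) (ofE (y (j + 1))) = (F ^ N) (c' j (ofE (y j)))
      rw [hy2]
      have h5 : loc (h j ∘ ⇑(F ^ N)) (y j) = toE (h j ((F ^ N) (ofE (y j)))) := by
        conv_lhs => rw [← toE_ofE (hy3 j).1]
        rw [loc_toE]
        rfl
      rw [h5, ofE_toE, hf, c1]
    refine ⟨w 0, fun j => ?_⟩
    rw [zpow_orbit hw]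
    show dist (c' j (ofE (y j))) (x j) ≤ ε
    have h6 : x j = c' j (c j (x j)) := (c1 j (x j)).symm
    rw [h6, (IsDeck.isometry (hc' j)).dist_eq]
    exact (hy3 j).2

theorem expansive {F : X r ≃ₜ X r} (hF : IsAnosovLift S F) : Expansive F := by
  obtain ⟨N, hN, h1, h2⟩ := exists_pow hF
  exact expansive_of_pow h1

theorem shadowing {F : X r ≃ₜ X r} (hF : IsAnosovLift S F) : Shadowing F := by
  obtain ⟨N, hN, h1, h2⟩ := exists_pow hF
  exact shadowing_of_pow hN (uniformContinuous_lift hF.2.2.1) h2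

/-- **Module C**: all positive powers of `F` are expansive and have the shadowing property. -/
theorem main {F : X r ≃ₜ X r} (hF : IsAnosovLift S F) {N : ℕ} (hN : 0 < N) :
    Expansive (F ^ N) ∧ Shadowing (F ^ N) :=
  ⟨expansive_pow hN (uniformContinuous_lift hF.2.2.1) (expansive hF),
    shadowing_pow hN (shadowing hF)⟩

end Pool.Agent.ANO5.A2.Dyn
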